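import Pool.Agent.Y581.WN.StmB

/-!
The number of the changed strings.
-/

set_option autoImplicit false

namespace Pool.Agent.Y658.WN

open Pool.Agent.NPC Pool.Agent.H620R2.Gauge Pool.Agent.Y581.WN Pool.Agent.Y626.WG

/-- the tuples of small numbers -/
def SmF : List ℕ → Finset (List ℕ)
  | [] => {[]}
  | r :: rs => (Finset.range (2 ^ r) ×ˢ SmF rs).image fun p => p.1 :: p.2

theorem mem_SmF : ∀ (rest y : List ℕ), Sm rest y → y ∈ SmF rest
  | [], [], _ => Finset.mem_singleton.2 rfl
  | [], _ :: _, h => h.elim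
  | _ :: _, [], h => h.elim
  | r :: rs, y :: ys, h => by
    have h' : y < 2 ^ r ∧ Sm rs ys := h
    unfold SmF
    rw [Finset.mem_image]
    exact ⟨(y, ys), Finset.mem_product.2 ⟨Finset.mem_range.2 h'.1, mem_SmF rs ys h'.2⟩, rfl⟩

theorem card_SmF : ∀ rest : List ℕ, (SmF rest).card ≤ 2 ^ rest.sum
  | [] => le_refl _
  | r :: rs => by
    unfold SmF
    refine Finset.card_image_le.trans ?_
    rw [Finset.card_product, Finset.card_range, List.sum_cons, pow_add]
    exact Nat.mul_le_mul_left _ (card_SmF rs)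

theorem mem_rgn {n k c ν j : ℕ} {w y : List ℕ} (hw : Tup (2 ^ ν) k w) (hk : 1 ≤ k) :
    (w ++ y).flatMap (labn n c ν j) ∈ Rgn n := by
  have h1 := hw.1
  cases w with
  | nil =>
    rw [List.length_nil] at h1
    omega
  | cons a w =>
    refine ⟨bitsOf c j ++ bitsOf ν a ++ (w ++ y).flatMap (labn n c ν j), ?_⟩
    rw [List.cons_append, List.flatMap_cons]
    unfold labn
    simp only [List.append_assoc, List.cons_append]

/-- **CHK** -/
theorem t_chk : S_chk := by
  classical
  intro B n k c ν τ s rest S κ f hS hk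
  have hout : ∀ q, (¬ ∃ p, IsLeafk n c ν τ rest S q p) → (¬ ∃ p, IsKeyk n c ν τ s S q p) →
      orck B n c ν τ s rest S κ f q = B q := by
    intro q h1 h2
    unfold orck
    rw [dif_neg h1, dif_neg h2]
  have hor : ∀ q, B q ≠ orck B n c ν τ s rest S κ f q → (∃ p, IsLeafk n c ν τ rest S q p) ∨
      ∃ p, IsKeyk n c ν τ s S q p := by
    intro q hq
    by_contra hcon
    rw [not_or] at hcon
    exact hq (hout q hcon.1 hcon.2).symm
  let LF : Finset (List Bool) := (Finset.range (2 ^ c) ×ˢ (Finset.range (2 ^ τ) ×ˢ SmF rest)).image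
    fun p => (S p.2.1 ++ p.2.2).flatMap (labn n c ν p.1)
  let KF : Finset (List Bool) :=
    (Finset.range (2 ^ c) ×ˢ (Finset.range (2 ^ τ) ×ˢ Finset.range s)).image
    fun p => (S p.2.1 ++ [kp ν p.2.2]).flatMap (labn n c ν p.1)
  have hsub : {y | B y ≠ orck B n c ν τ s rest S κ f y} ⊆ ((LF ∪ KF : Finset (List Bool)) :
      Set (List Bool)) := by
    intro q hq
    rw [Finset.mem_coe, Finset.mem_union]
    rcases hor q hq with ⟨p, h1, h2, h3, h4⟩ | ⟨p, h1, h2, h3, h4⟩
    · left
      rw [Finset.mem_image]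
      exact ⟨p, Finset.mem_product.2 ⟨Finset.mem_range.2 h1, Finset.mem_product.2
        ⟨Finset.mem_range.2 h2, mem_SmF _ _ h3⟩⟩, h4.symm⟩
    · right
      rw [Finset.mem_image]
      exact ⟨p, Finset.mem_product.2 ⟨Finset.mem_range.2 h1, Finset.mem_product.2
        ⟨Finset.mem_range.2 h2, Finset.mem_range.2 h3⟩⟩, h4.symm⟩
  refine ⟨?_, ?_, ?_⟩
  · intro q hq
    apply hout
    · rintro ⟨p, h1, h2, h3, h4⟩
      apply hq
      rw [h4]
      exact mem_rgn (hS.tup _ h2) hk
    · rintro ⟨p, h1, h2, h3, h4⟩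
      apply hq
      rw [h4]
      exact mem_rgn (hS.tup _ h2) hk
  · exact (Finset.finite_toSet _).subset hsub
  · refine (Set.ncard_le_ncard hsub (Finset.finite_toSet _)).trans ?_
    rw [Set.ncard_coe_finset]
    refine (Finset.card_union_le _ _).trans ?_
    have e1 : LF.card ≤ 2 ^ c * (2 ^ τ * 2 ^ rest.sum) := by
      refine Finset.card_image_le.trans ?_
      rw [Finset.card_product, Finset.card_product, Finset.card_range, Finset.card_range]
      exact Nat.mul_le_mul_left _ (Nat.mul_le_mul_left _ (card_SmF rest))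
    have e2 : KF.card ≤ 2 ^ c * (2 ^ τ * s) := by
      refine Finset.card_image_le.trans ?_
      rw [Finset.card_product, Finset.card_product, Finset.card_range, Finset.card_range,
        Finset.card_range]
    calc LF.card + KF.card ≤ 2 ^ c * (2 ^ τ * 2 ^ rest.sum) + 2 ^ c * (2 ^ τ * s) :=
          Nat.add_le_add e1 e2
      _ = 2 ^ c * 2 ^ τ * (s + 2 ^ rest.sum) := by ring

end Pool.Agent.Y658.WN
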