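import Pool.Agent.Y581.WN.StmC
import Pool.Agent.H628R3.RO.M1

/-!
A quarter of the copies is noisy with small probability.
-/

set_option autoImplicit false

namespace Pool.Agent.Y658.WN

open MeasureTheory Pool.Agent.NPC Pool.Agent.H620R2.Gauge Pool.Agent.Y581.WN
open Pool.Agent.H628R3.RO (randomOracle prob prob_plant)

theorem bits_inj' {i j : ℕ} (h : Nat.bits i = Nat.bits j) : i = j := by
  have h1 := Nat.digits_two_eq_bits i
  rw [h, ← Nat.digits_two_eq_bits j] at h1
  exact (Nat.digits_inj_iff).1 h1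

theorem bitsOf3 : ∀ i < 8, ∀ j < 8, bitsOf 3 i = bitsOf 3 j → i = j := by decide

theorem bitsOf3_len : ∀ i < 8, (bitsOf 3 i).length = 3 := by decide

/-- the strings of the copies in `T` -/
def SS (q : List Bool) (T : Finset ℕ) : Finset (List Bool) :=
  (Finset.range 8 ×ˢ T).image fun p => bitsOf 3 p.1 ++ pairBits q (Nat.bits p.2)

theorem card_SS (q : List Bool) (T : Finset ℕ) : (SS q T).card = 8 * T.card := by
  unfold SS
  rw [Finset.card_image_of_injOn, Finset.card_product, Finset.card_range]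
  rintro ⟨i, j⟩ hp ⟨i', j'⟩ hp' he
  rw [Finset.mem_coe, Finset.mem_product, Finset.mem_range] at hp hp'
  simp only at hp hp' he
  obtain ⟨h1, h2⟩ := List.append_inj he
    ((bitsOf3_len i hp.1).trans (bitsOf3_len i' hp'.1).symm)
  have h3 := congrArg unpair h2
  rw [unpair_pairBits, unpair_pairBits, Prod.mk.injEq] at h3
  rw [bitsOf3 i hp.1 i' hp'.1 h1, bits_inj' h3.2]

theorem nz_iff (R : Oracle) (w : List Bool) :
    nz R w = true ↔ ∀ i < 8, R (bitsOf 3 i ++ w) = true := by
  unfold nz
  rw [List.all_eq_true]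
  constructor
  · intro h i hi
    exact h i (List.mem_range.2 hi)
  · intro h i hi
    exact h i (List.mem_range.1 hi)

theorem prob_SS (q : List Bool) (T : Finset ℕ) :
    prob {R | ∀ j ∈ T, nz R (pairBits q (Nat.bits j)) = true} = (1 / 2 : ℝ) ^ (8 * T.card) := by
  have h := prob_plant (S := Set.univ) MeasurableSet.univ (SS q T)
  rw [Set.inter_univ, Set.preimage_univ, card_SS] at h
  have h1 : prob Set.univ = 1 := by
    unfold prob
    exact probReal_univ
  rw [h1, mul_one] at h
  rw [← h]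
  congr 1
  ext R
  simp only [Set.mem_ofPred_eq]
  constructor
  · intro hR x hx
    unfold SS at hx
    rw [Finset.mem_image] at hx
    obtain ⟨⟨i, j⟩, hp, rfl⟩ := hx
    rw [Finset.mem_product, Finset.mem_range] at hp
    exact (nz_iff R _).1 (hR j hp.2) i hp.1
  · intro hR j hj
    rw [nz_iff]
    intro i hi
    apply hR
    unfold SS
    rw [Finset.mem_image]
    exact ⟨(i, j), Finset.mem_product.2 ⟨Finset.mem_range.2 hi, hj⟩, rfl⟩

/-- **NOISE** -/
theorem t_noise : S_noise := by
  classical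
  intro q n
  have hsub : {R : Oracle | n + 1 ≤ nno R q n} ⊆
      ⋃ T ∈ (Finset.range (4 * (n + 1))).powersetCard (n + 1),
        {R : Oracle | ∀ j ∈ T, nz R (pairBits q (Nat.bits j)) = true} := by
    intro R hR
    simp only [Set.mem_ofPred_eq] at hR
    unfold nno at hR
    obtain ⟨T, hT, hTc⟩ := Finset.exists_subset_card_eq hR
    rw [Set.mem_iUnion₂]
    refine ⟨T, ?_, ?_⟩
    · rw [Finset.mem_powersetCard]
      exact ⟨hT.trans (Finset.filter_subset _ _), hTc⟩
    · simp only [Set.mem_ofPred_eq]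
      intro j hj
      exact (Finset.mem_filter.1 (hT hj)).2
  have h1 : prob {R : Oracle | n + 1 ≤ nno R q n} ≤
      prob (⋃ T ∈ (Finset.range (4 * (n + 1))).powersetCard (n + 1),
        {R : Oracle | ∀ j ∈ T, nz R (pairBits q (Nat.bits j)) = true}) := by
    unfold prob
    exact measureReal_mono hsub (measure_ne_top _ _)
  have h2 : prob (⋃ T ∈ (Finset.range (4 * (n + 1))).powersetCard (n + 1),
        {R : Oracle | ∀ j ∈ T, nz R (pairBits q (Nat.bits j)) = true}) ≤
      ∑ T ∈ (Finset.range (4 * (n + 1))).powersetCard (n + 1),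
        prob {R : Oracle | ∀ j ∈ T, nz R (pairBits q (Nat.bits j)) = true} := by
    unfold prob
    exact measureReal_biUnion_finset_le _ _
  have h3 : ∑ T ∈ (Finset.range (4 * (n + 1))).powersetCard (n + 1),
        prob {R : Oracle | ∀ j ∈ T, nz R (pairBits q (Nat.bits j)) = true} =
      ((4 * (n + 1)).choose (n + 1) : ℝ) * (1 / 2) ^ (8 * (n + 1)) := by
    rw [Finset.sum_congr rfl (g := fun _ => (1 / 2 : ℝ) ^ (8 * (n + 1))), Finset.sum_const,
      Finset.card_powersetCard, Finset.card_range, nsmul_eq_mul]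
    intro T hT
    rw [prob_SS, (Finset.mem_powersetCard.1 hT).2]
  have h4 : ((4 * (n + 1)).choose (n + 1) : ℝ) ≤ 2 ^ (4 * (n + 1)) := by
    exact_mod_cast Nat.choose_le_two_pow _ _
  calc prob {R : Oracle | n + 1 ≤ nno R q n}
      ≤ ((4 * (n + 1)).choose (n + 1) : ℝ) * (1 / 2) ^ (8 * (n + 1)) := (h1.trans h2).trans h3.le
    _ ≤ 2 ^ (4 * (n + 1)) * (1 / 2) ^ (8 * (n + 1)) :=
        mul_le_mul_of_nonneg_right h4 (by positivity)
    _ = (1 / 2) ^ (4 * (n + 1)) := by
        rw [show 8 * (n + 1) = 4 * (n + 1) + 4 * (n + 1) by ring, pow_add, ← mul_assoc, ← mul_pow]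
        norm_num
    _ ≤ (1 / 2) ^ (2 * n + 2) :=
        pow_le_pow_of_le_one (by norm_num) (by norm_num) (by omega)

end Pool.Agent.Y658.WN
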